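import Pool.Agent.P.MP_36f9aa_co.Assemble
import Pool.Agent.P.MP_36f9aa_co.Choice
import Pool.Agent.P.MP_36f9aa_co.Final

set_option autoImplicit false

namespace Pool.Agent.Results.MP_36f9aa_co.Net

open Pool.Agent.P.MP_36f9aa_co

/-- Every prismatoid has a net. -/
theorem result (A B : Set E3) (hA : IsPolygon A) (hB : IsPolygon B) (ν : E3) (c₁ c₂ : ℝ)
    (hν : ν ≠ 0) (hc : c₁ ≠ c₂) (h₁ : ∀ x ∈ A, inner ℝ ν x = c₁) (h₂ : ∀ x ∈ B, inner ℝ ν x = c₂) :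
    HasNet (convexHull ℝ (A ∪ B)) :=
  final (fun M => by
    obtain ⟨c, h | h⟩ := M.choice
    · exact ⟨c, Or.inl (Model.net_of_good (M.good_rot h))⟩
    · exact ⟨c, Or.inr (Model.net_of_good (M.swap.good_rot h))⟩) A B hA hB ν c₁ c₂ hν hc h₁ h₂

end Pool.Agent.Results.MP_36f9aa_co.Net
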